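import Pool.Agent.L0h14.CC.Main

/-!
# Künneth projectors of threefolds which are fibred over a curve

Let `k` be a perfect field of characteristic `p`, for instance the algebraic closure of a field of rational functions, and `H` the
crystalline cohomology (or any other Weil cohomology with the properties listed below). Let `Y` be a smooth projective variety
of dimension `n` over `k` with a morphism to a curve `C` whose generic fibre `A` over `K = k(C)` is smooth, and let
`X` be a variety of the same dimension which is dominated by `Y` (or a direct factor of `Y` in the sense of
correspondences of degree zero).

Theorem. Let `n = 3`. If the fixed part of the second cohomology of the geometric generic fibre, the image of `H^2(Y)` in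
`H^2(Ā)`, comes by correspondences from varieties with algebraic Künneth projectors, for example if it is spanned by classes of
divisors, then all Künneth projectors of `X` are algebraic. In particular the sign conjecture `C⁺(X)` holds. The same is true
for `n > 3` if in addition the groups `H^i(Y)`, `2 < i < n`, come from varieties with algebraic Künneth projectors.

No condition is imposed on the kernel of `H^2(Y) → H^2(Ā)`, that is on `H^1(C, R^1)`, on `H^3(Y)`, or on the singular fibres.

The fixed part is spanned by divisors if `A` is a rational or ruled, Enriques or bielliptic surface, a supersingular
surface of any kind (with `ρ = b_2`), or a surface such that the geometric monodromy group on the transcendental part of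
`H^2(Ā)` has no invariants. If the fibres are K3 or abelian surfaces in characteristic `p > 2` then it is spanned by divisors
or the family is isotrivial: if the fixed part has slopes different from one then its complement has slope one, so that it is
algebraic, by the theorem of Tate for these surfaces, and the monodromy is finite. Isotrivial families are dominated by
products, for which `C` is known. If `X` has an elliptic fibration over a surface and the invariant `j` is not constant, then
the generic fibre of `j : X ⇢ ℙ¹` is dominated by a product of an elliptic curve with variable `j` and another curve, and
the fixed part is again spanned by divisors. So `C(X)`, and `C⁺(X)`, holds for all threefolds with an elliptic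
fibration and all threefolds which are fibred over a curve in surfaces of Kodaira dimension at most zero.

The proof: Murre's Picard projector of `A` spreads out to a correspondence `P` of `Y` which factors through a surface, so
that its Künneth components are algebraic, and which acts on the kernel of `H^2(Y) → H^2(Ā)`, up to divisors, as the
identity. If `Q` acts on the fixed part as the identity and `E` on the classes of divisors, and if the Künneth components of
`Q` and `E` are algebraic, then `(1 - E) (1 - P_2) (1 - Q_2)` is zero on `H^2` and the identity on all other groups.
-/

set_option autoImplicit false

universe u v w u' v'

open CategoryTheory

namespace Pool.Agent.Results.MP_fd35e1_ag.FibrationsOverCurves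

open Pool.Agent.L0h14.CK Pool.Agent.L0h14.DD

/-- Let `T` be the theory of correspondences over a field with a Weil cohomology, `Φ` the relation to the correspondences over
the function field of a curve, and `Φ.model A` the total space of a variety `A` over the function field. Suppose that the
identity of `H^2(Φ.model A)` is, modulo the kernel `Φ.van A` of the restriction to the geometric generic fibre, and
for `3 ≤ i < dim` the identity of `H^i(Φ.model A)` is, equal to a correspondence which factors through varieties with algebraic
Künneth projectors. Then all Künneth projectors of `Φ.model A`, and of its direct factors `X`, are algebraic. -/
theorem result {𝒱 : Type u} [Category.{v} 𝒱] [Preadditive 𝒱] [Linear ℚ 𝒱] {F : Type w} [Field F]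
    (T : CorrTheory 𝒱 F) (hT : T.SmallDegree) {𝒲 : Type u'} [Category.{v'} 𝒲] (Φ : Spread T 𝒲) (A : 𝒲)
    (hfix : Φ.FixedPartFromC A) (hi : ∀ i, 3 ≤ i → i < T.dim (Φ.model A) → T.FromC (Φ.model A) i)
    (X : 𝒱) (hX : T.DirectFactor X (Φ.model A)) : T.ConjectureC X ∧ T.ConjectureCPlus X := by
  obtain ⟨u, hu, v, hv, huv⟩ := hX
  have h := conjectureC_of_factor hu hv huv (conjectureC_of_fibration hT Φ A hfix hi)
  exact ⟨h, cPlus_of_c h⟩

end Pool.Agent.Results.MP_fd35e1_ag.FibrationsOverCurves
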