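import Pool.Agent.L0h13.SD.Main

/-!
# The growth rate of the numerical motives of the powers of a variety is an integer

Let `ops` be the cycles of a class of smooth proper varieties closed under products which has a Weil
cohomology theory (crystalline cohomology over a perfect field, say). For a variety `Y` let
`r(Y) = midRank ops Y` be the rank of the group of cycles of codimension `dim Y` on `Y × Y` modulo
numerical equivalence, and for a Weil cohomology theory `W` with coefficient field `K` let

* `b(Y) = cohDim W Y` be the dimension of the cohomology, `evenDim` and `oddDim` its even and odd parts,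
* `c(Y) = evenOddDim W Y` the dimension of the largest direct summand of the motive `h(Y)` (homological
  equivalence, coefficients in `K`) which is the sum of an even and an odd motive; the sign conjecture
  `C⁺(Y)` holds if and only if `c(Y) = b(Y)`,
* `ν(Y) = nonNeg W Y` the dimension of the non-negligible part of `h(Y)`.

**Theorem.** For every variety `X` there is a natural number `β` such that

1. `β^(2N) / (N + 1)^(β^2) ≤ r(X^N) ≤ ν_W(X^N)^2 ≤ (N + 1)^(b_W(X)^2) β^(2N)` for all `N ≥ 1` and all Weil
   cohomology theories `W`. So the `2N`-th roots of `r(X^N)` and the `N`-th roots of `ν_W(X^N)` converge to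
   the INTEGER `β`, which does not depend on `W`.
2. For each `W` there is a natural number `d` with `β = (evenDim - d) + (oddDim - d)`, `d ≤ evenDim`,
   `d ≤ oddDim`, so `b_W(X) = β + 2 d`, and `|χ(X)| ≤ β ≤ b_W(X)`.
3. The numerically trivial combinations of self-correspondences of degree zero of all powers of `X` are
   nilpotent on the cohomology if and only if `β = b_W(X)`.
4. One of three alternatives is true. (i) `C⁺(X)`, and `β = b`. (ii) `C⁺(X)` is false, `β = b`, and
   `c(X^N) ≤ (b^N + (b - 2)^N) / 2` for one of any two successive `N`. (iii) `C⁺(X)` is false, `β ≤ b - 2`,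
   and `c(X^N)^2 ≤ (N + 1)^(b^2) (b - 2)^(2N)` for all `N ≥ 1`.

So there is a gap: if the growth rate of `r`, `ν` or `c` is larger than `b - 2` then it is `b`, and all
numerically trivial operators are nilpotent; and `β` and the statement of nilpotence can be compared for
all Weil cohomology theories.

The proof. The elements of the group algebras `K[S_N]` which are numerically trivial on `X^N` form
two-sided ideals `J_N` stable under the inclusions `S_N ⊂ S_(N+1)` and under the partial traces
`K[S_(N+1)] → K[S_N]` with parameter `t = χ(X)`. Let `P_y(u) = ∑ y_σ u^(number of cycles of σ)`, and let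
`I_s` be the set of all `y` such that `(u - t)^s` divides all `P_(yz)(u)`. (a) For `m - n = t` and
`s = min(m, n) + 1` the ideal `I_s` is the kernel of the action on the tensor powers of `K^(m|n)`: the
derivatives of `P_y` at `t` are values of supertraces, and conversely `∑ u^(cycles of σ) σ⁻¹` acts on a
highest weight vector by a content polynomial whose order at `t` is at most `min(m, n)`. (b) So the `I_s`
are prime for the product of permutations side by side, and it follows with the partial traces that
each stable family of ideals is one of the `I_s`. So a combination of permutations is numerically trivial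
if and only if it acts as zero on the tensor powers of some `K^(m|n)`, `β = m + n`. (c) The dimension of `K[S_N] / J_N` is then known up to
a polynomial factor, and `ν(X^N)^2` is at most `(N + 1)^(b^2)` times this dimension.
-/

set_option autoImplicit false

open CategoryTheory AlgebraicGeometry

universe u v w

namespace Pool.Agent.Results.MP_fd35e1_ag.IntegralGrowthRate

open Pool.Agent.H914 VarClass Obj WeilCohomology Pool.Agent.N103.OC Pool.Agent.N536.SG
  Pool.Agent.N536.HK Pool.Agent.L0h13.GP Pool.Agent.L0h13.SD

/-- **The growth rate of the numerical motives of the powers of a variety is an integer.** -/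
theorem result {k : Type u} [Field k] {𝒱 : VarClass k} {ops : CycleOps 𝒱}
    (W₀ : WeilCohomology.{u, w} ops) (X : 𝒱.Obj) :
    ∃ β : ℕ, (∀ β', RankGrowth ops X β' ↔ β' = β) ∧
      (∀ N ≥ 1, β ^ (2 * N) ≤ (N + 1) ^ (β ^ 2) * midRank ops (pw X N)) ∧
      ∀ W : WeilCohomology.{u, v} ops, Defect W X β ∧
        (∀ N ≥ 1, midRank ops (pw X N) ≤ nonNeg W (pw X N) ^ 2 ∧
          nonNeg W (pw X N) ^ 2 ≤ (N + 1) ^ (cohDim W X ^ 2) * β ^ (2 * N)) ∧
        (NilOnPowers W X ↔ β = cohDim W X) ∧ SignAlternatives W X β :=
  main' W₀ X

end Pool.Agent.Results.MP_fd35e1_ag.IntegralGrowthRate
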