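import Pool.Agent.L0h14.PC.Main

/-!
# The conjectures C and C⁺ from the generic fibre

Let `f : Y → S` be a morphism from a smooth projective variety over a field `k` of any characteristic to a projective variety of
any dimension `m`, with smooth generic fibre `A` over `K = k(S)`. Let `X` be a direct factor of `Y` by correspondences of
degree zero, for instance a variety of the same dimension which is dominated by `Y`.

Theorem. Suppose that the conjecture `C⁺` (the projector to the cohomology of even degree is algebraic) holds for `A` over `K`,
and that the cohomology classes of `Y` which are supported over proper closed subsets of `S` come from varieties which satisfy
`C⁺`. Then `C⁺` holds for `X`. The same is true for the conjecture `C` (all Künneth projectors are algebraic), and for the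
projectors to the sum of all `H^j` with `j` in a given class modulo `N`, for every `N`.

There is no condition of finiteness, no semisimplicity and no condition on the singular fibres besides the one on the classes which are
supported on them. If `S` is a curve and `f` is smooth then the condition says that the invariant cohomology of the fibres,
the image of `H^*(Y)` in the cohomology of a fibre, and its dual, the image of the Gysin map, come from varieties satisfying
`C⁺`, for instance that it is spanned by algebraic classes. So in characteristic `p` the conjecture `C` holds for the fibre
products of arbitrarily many families of curves and surfaces over a curve with large monodromy, of arbitrarily large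
dimension. Over finite fields the conjecture `C` is a theorem of Katz and Messing; over the function fields
and their perfect closures the conjecture `C⁺` is open.

The theorem holds for every Weil cohomology with the properties which are listed in the structures. By the theorem of Katz and Messing
the characteristic polynomials of a correspondence on the `l`-adic and on the crystalline cohomology groups coincide, so `C⁺`
for one of these cohomologies implies `C⁺` for all of them.

The proof: a projector `π` of `A` spreads out to a relative correspondence `p` of `Y`. Let `e` be a sum of
correspondences which factor through varieties which satisfy `C⁺`, and which acts as the identity on the classes supported over proper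
closed subsets. By the Leray spectral sequence over a small affine open subset of `S`, Artin vanishing and Poincaré duality `p` acts on
`H^k(Y)` as `e^t p + (1 - e^t) p e` if `π` acts as zero on `H^(k-m)` of the geometric generic fibre; and the even and odd
components of correspondences of this form are algebraic.
-/

set_option autoImplicit false

universe u v w u' v'

open CategoryTheory

namespace Pool.Agent.Results.MP_fd35e1_ag.KunnethFromGenericFibre

open Pool.Agent.L0h14.CK Pool.Agent.L0h14.PF Pool.Agent.L0h14.PC

/-- Let `T` be the theory of correspondences over a field, with a Weil cohomology, and `Φ` the relation to the correspondences
over the function field of a base `S` of dimension `m`. Let `A` be a variety over this function field, with the total space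
`Φ.model A`, and `X` a direct factor of `Φ.model A`. For every natural number `N`: if the projectors modulo `N` of `A` are
algebraic and if the classes of `Φ.model A` which are supported over proper closed subsets of `S` come from varieties with
algebraic projectors modulo `N`, then the projectors modulo `N` of `X` are algebraic. The conjecture `C` is the case `N = 0`, the
conjecture `C⁺` is the case `N = 2`. -/
theorem result {𝒱 : Type u} [Category.{v} 𝒱] [Preadditive 𝒱] [Linear ℚ 𝒱] {F : Type w} [Field F]
    (T : CorrTheory 𝒱 F) (m : ℕ) {𝒲 : Type u'} [Category.{v'} 𝒲] [Preadditive 𝒲] (Φ : Family T m 𝒲) (A : 𝒲) (X : 𝒱)
    (hX : Factor T X (Φ.model A)) (N : ℕ) (hA : GenericKunnethMod Φ N A) (hs : SupportedMod Φ N A) :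
    KunnethMod T N X :=
  kunneth_of_factor hX (kunneth_of_generic Φ A hA hs)

end Pool.Agent.Results.MP_fd35e1_ag.KunnethFromGenericFibre
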