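import Pool.Agent.L0h13.EF.Fin

/-!
# One cycle decides the nilpotence of the numerically trivial correspondences of all powers

`ops` are the cycles of a class of smooth proper varieties over a field closed under products, `W` is a
Weil cohomology theory with coefficient field `K`, `evenB`, `oddB` and `cohDim` are the dimensions of
the even, the odd and the whole cohomology. A combination `z` of the permutations of the factors of
`X^(N + 1)` with rational coefficients is a correspondence of degree `0` of `X^(N + 1)` (a combination of
graphs); `HomTrivialZ W X z` says that it is homologically trivial, `NumTrivialZ W X z` that it is numerically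
trivial. `NilOnPowers W X` says that all numerically trivial combinations (with coefficients in `K`) of
correspondences of degree zero of all powers of `X` are nilpotent on the cohomology. This is a consequence of
the sign conjecture `C⁺(X)` (`SignStd W X`), and also of the conjecture `D` for the powers of `X`.
`GrowsLike ops X β` says that the rank of the cycles of codimension `dim X^N` on `X^N × X^N` modulo numerical
equivalence is `β^(2N)` up to polynomial factors; such a natural number `β` exists and is unique by the
theorem `IntegralGrowthRate`.

**Theorem.** For all `p, q ≥ 1` there is a combination `z` of the permutations of `p q` letters, with rational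
coefficients, which depends only on `p` and `q`, such that for all varieties `X` (over all fields, for all
Weil cohomology theories) with Euler characteristic `evenB - oddB = p - q`:

1. `z` is homologically trivial on `X^(p q)` if and only if `b(X) < p + q`;
2. `z` is numerically trivial on `X^(p q)` if and only if `β(X) < p + q`;
3. in particular if `evenB = p` and `oddB = q` then `z` is not homologically trivial, and the numerically
   trivial correspondences of ALL powers of `X` are nilpotent if and only if this ONE cycle `z` on
   `X^(p q) × X^(p q)` is not numerically trivial. If `z` is numerically trivial then `C⁺(X)` fails.

So the nilpotence for all powers of `X` is equivalent to the conjecture `D` for one cycle on the power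
`X^(2 p q)` (it is homologically nontrivial; the conjecture says that it is not numerically trivial). The
number `β(X)`, and so the statement of nilpotence, is determined by the numerical classes of finitely many
explicit cycles, by 2.

The proof. By the classification of the stable families of ideals in the group algebras of the symmetric
groups (see `IntegralGrowthRate`) the numerically trivial combinations of permutations are those which act as
zero on the tensor powers of some `K^(m|n)`, `m + n = β`, and these are the `y` such that `(u - t)^s` divides
all `P_(yz)(u)`, where `t = m - n`, `s = min(m, n) + 1`, `P_y(u) = ∑ y_σ u^(number of cycles of σ)`. So one has to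
find `y` such that `(u - t)^s` divides all `P_(yz)` for `s = min(p, q)`, and which is not zero on the tensor
power of `K^(p|q)`. Write `∑ u^(cycles of σ) σ⁻¹ = ∑ ω_j (u - t)^j`; the `ω_j` are central. A product of
determinants in the even letters is a highest weight vector `F` of weight `(q^p | 0)`, on which the sum acts
as the content polynomial of the rectangle, which is divisible by `(u - t)^min(p, q)`; so `ω_j F = 0` for
`j < min(p, q)`. The left ideal generated by these `ω_j` is generated by an idempotent `e`, and `y = 1 - e`
has `y ω_j = 0` and `y F = F`.
-/

set_option autoImplicit false

open CategoryTheory AlgebraicGeometry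

universe u v

namespace Pool.Agent.Results.MP_fd35e1_ag.RectangleCycle

open Pool.Agent.H914 VarClass Obj WeilCohomology Pool.Agent.N190.CB Pool.Agent.N103.OC
  Pool.Agent.H447 Pool.Agent.N536.SG
  Pool.Agent.N536.HK Pool.Agent.L0h13.GP Pool.Agent.L0h13.SD Pool.Agent.L0h13.EF

/-- **One cycle decides the nilpotence of the numerically trivial correspondences of all powers.** -/
theorem result (p q N : ℕ) (hN : N + 1 = p * q) :
    ∃ z : Equiv.Perm (Fin (N + 1)) → ℚ,
      ∀ {k : Type u} [Field k] {𝒱 : VarClass k} {ops : CycleOps 𝒱}
        (W : WeilCohomology.{u, v} ops) (X : 𝒱.Obj), evenB W X + q = oddB W X + p →
        (HomTrivialZ W X z ↔ cohDim W X < p + q) ∧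
        (∀ β, GrowsLike ops X β → (NumTrivialZ W X z ↔ β < p + q)) ∧
        (cohDim W X = p + q → (NilOnPowers W X ↔ ¬ NumTrivialZ W X z) ∧
          (SignStd W X → ¬ NumTrivialZ W X z)) := by
  obtain ⟨z, hz⟩ := exists_z.{v} p q (N + 1) hN
  exact ⟨z, fun W X h => detect hz h⟩

end Pool.Agent.Results.MP_fd35e1_ag.RectangleCycle
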